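import Pool.Agent.NNb.Main2

/-!
# Monohedral convex tilings in which every tile has exactly `n` neighbours:
# only `n = 11, 13, 15` are left
-/

namespace Pool.Agent.MP_4b6a99_co.Variants.ThreeCasesLeft

open Pool.Agent.NNb

/-- If there is an `n`-neighbour tiling of the plane by congruent copies of one convex polygon
(`K(n) = 1`), then `n` is one of the nine known values or `n = 11`, `n = 13` or `n = 15`. -/
theorem result (n : ℕ) (h : KEqOne n) :
    n ∈ ({6, 7, 8, 9, 10, 12, 14, 16, 21} : Finset ℕ) ∨ n = 11 ∨ n = 13 ∨ n = 15 := by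
  have h' := keqone_bound2 n h
  simp only [Finset.mem_insert, Finset.mem_singleton]
  omega

end Pool.Agent.MP_4b6a99_co.Variants.ThreeCasesLeft
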